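import Pool.Agent.K4W.StmtsU

set_option autoImplicit false

namespace Pool.Agent.K4W.H42

theorem uxa (h1 : UreStmt) (h2 : UtrStmt) : UxaStmt := by
  intro f a b ha hb hf h
  -- summability of the double family for this `h`
  have hT := h2 f a b ha hb hf
  have hinj : Function.Injective (fun q : ℤ × ℤ => (((h, q.1), q.2) : (ℤ × ℤ) × ℤ)) := by
    rintro ⟨m, x⟩ ⟨m', x'⟩ hq
    simp only [Prod.mk.injEq] at hq
    ext
    · exact hq.1.2
    · exact hq.2
  have hD : Summable (fun q : ℤ × ℤ => F4 f a b h q.1 q.2) := by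
    have := (hT.comp_injective hinj)
    exact Summable.of_norm this
  have hD' : Summable (fun q : ℤ × ℤ => F4 f a b h q.2 q.1) := by
    have := (Equiv.prodComm ℤ ℤ).summable_iff.2 hD
    exact this
  have hΦ : Summable (fun x : ℤ => ∑' m : ℤ, F4 f a b h m x) := hD'.prod
  have hone : ∀ c : ℕ, (((‖∑' y : ℤ, f ((c : ℤ) + (a : ℤ) * y) *
      (starRingEnd ℂ) (f ((c : ℤ) + (a : ℤ) * y + (b : ℤ) * h))‖ ^ 2 : ℝ)) : ℂ) =
      ∑' y : ℤ, ∑' m : ℤ, F4 f a b h m ((c : ℤ) + (a : ℤ) * y) := by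
    intro c
    rw [Complex.ofReal_pow, ← Complex.mul_conj', Complex.conj_tsum, ← tsum_mul_right]
    refine tsum_congr fun y => ?_
    rw [← (Equiv.addLeft y).tsum_eq, ← tsum_mul_left]
    refine tsum_congr fun m => ?_
    simp only [Equiv.coe_addLeft, F4, map_mul, Complex.conj_conj]
    have e1 : (c : ℤ) + (a : ℤ) * (y + m) = (c : ℤ) + (a : ℤ) * y + (a : ℤ) * m := by ring
    rw [e1]
  unfold Ut
  rw [Complex.ofReal_sum, Finset.sum_congr rfl (fun c _ => hone c)]
  rw [← (h1 (fun x : ℤ => ∑' m : ℤ, F4 f a b h m x) a ha hΦ).2]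
  exact Summable.tsum_comm (f := fun m x => F4 f a b h m x) hD

end Pool.Agent.K4W.H42
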